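import Mathlib

open Matrix Finset

namespace Pool.Agent.Results.MP_3c4fb9_al.Commute

/-- Constant coefficient of the block `L_e`: ones in positions `(i, i+1)`. -/
def LA (e : ℕ) : Matrix (Fin e) (Fin (e + 1)) ℂ := of fun i j => if j.val = i.val + 1 then 1 else 0

/-- `λ`-coefficient of the block `L_e`: ones in positions `(i, i)`. -/
def LB (e : ℕ) : Matrix (Fin e) (Fin (e + 1)) ℂ := of fun i j => if j.val = i.val then 1 else 0

/-- The Jordan block of size `g` with eigenvalue `μ`. -/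
def Jb (g : ℕ) (μ : ℂ) : Matrix (Fin g) (Fin g) ℂ :=
  of fun i j => if i = j then μ else if j.val = i.val + 1 then 1 else 0

section
variable {n m p q : ℕ} (δ : Fin n → ℕ) (ε : Fin m → ℕ) (γ : Fin p → ℕ) (β : Fin q → ℕ)

abbrev Row := (Σ a, Fin (δ a + 1)) ⊕ (Σ b, Fin (ε b)) ⊕ (Σ a, Fin (γ a)) ⊕ (Σ a, Fin (β a))

abbrev Col := (Σ a, Fin (δ a)) ⊕ (Σ b, Fin (ε b + 1)) ⊕ (Σ a, Fin (γ a)) ⊕ (Σ a, Fin (β a))

/-- Constant coefficient of `diag(L^T blocks, L blocks, J blocks, N blocks)`. -/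
def KA (μ : Fin p → ℂ) : Matrix (Row δ ε γ β) (Col δ ε γ β) ℂ :=
  fromBlocks (blockDiagonal' fun a => (LA (δ a))ᵀ) 0 0 (fromBlocks (blockDiagonal' fun b => LA (ε b))
    0 0 (fromBlocks (blockDiagonal' fun a => Jb (γ a) (μ a)) 0 0
      (blockDiagonal' fun a => (1 : Matrix (Fin (β a)) (Fin (β a)) ℂ))))

/-- `λ`-coefficient of `diag(L^T blocks, L blocks, J blocks, N blocks)`. -/
def KB : Matrix (Row δ ε γ β) (Col δ ε γ β) ℂ :=
  fromBlocks (blockDiagonal' fun a => (LB (δ a))ᵀ) 0 0 (fromBlocks (blockDiagonal' fun b => LB (ε b))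
    0 0 (fromBlocks (blockDiagonal' fun a => (1 : Matrix (Fin (γ a)) (Fin (γ a)) ℂ)) 0 0
      (blockDiagonal' fun a => Jb (β a) 0)))

/-- For each positive size `d`: `d` times the number of blocks of size `d` is at most the number
of blocks of smaller size. -/
def Cond : Prop := ∀ d, 0 < d → d * #{a | δ a = d} ≤ #{a | δ a < d}

end

variable {n : ℕ} {δ : Fin n → ℕ}

abbrev PA (δ : Fin n → ℕ) := blockDiagonal' fun a => LA (δ a)

abbrev PB (δ : Fin n → ℕ) := blockDiagonal' fun a => LB (δ a)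

lemma l1 (f : Fin n → ℕ → ℂ) (v : Σ a, Fin (δ a + 1)) :
    ∑ w, PA δ w v * f w.1 w.2 = if 0 < v.2.val then f v.1 (v.2 - 1) else 0 := by
  obtain ⟨a, i⟩ := v
  rw [Fintype.sum_sigma, sum_eq_single a (fun b _ h => by simp [blockDiagonal'_apply_ne _ _ _ h])
    (by simp)]
  simp only [blockDiagonal'_apply_eq, LA, of_apply]
  induction i using Fin.cases with
  | zero => simp
  | succ j => rw [sum_eq_single j (fun k _ h => by simp [Fin.val_inj, h.symm]) (by simp)]; simp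

lemma l2 (f : Fin n → ℕ → ℂ) (v : Σ a, Fin (δ a + 1)) :
    ∑ w, PB δ w v * f w.1 w.2 = if v.2.val < δ v.1 then f v.1 v.2 else 0 := by
  obtain ⟨a, i⟩ := v
  rw [Fintype.sum_sigma, sum_eq_single a (fun b _ h => by simp [blockDiagonal'_apply_ne _ _ _ h])
    (by simp)]
  simp only [blockDiagonal'_apply_eq, LB, of_apply]
  induction i using Fin.lastCases with
  | last => rw [sum_eq_zero fun k _ => by simp [k.2.ne']]; simp
  | cast j => rw [sum_eq_single j (fun k _ h => by simp [Fin.val_inj, h.symm]) (by simp)]; simp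

lemma l3 (f : Fin n → ℕ → ℂ) (w : Σ a, Fin (δ a)) :
    ∑ v, PA δ w v * f v.1 v.2 = f w.1 (w.2 + 1) := by
  obtain ⟨a, j⟩ := w
  rw [Fintype.sum_sigma, sum_eq_single a
    (fun b _ h => by simp [blockDiagonal'_apply_ne _ _ _ h.symm]) (by simp)]
  simp only [blockDiagonal'_apply_eq, LA, of_apply]
  rw [sum_eq_single j.succ (fun k _ h => by
    rw [if_neg (fun e : k.val = j.val + 1 => h (Fin.ext e)), zero_mul]) (by simp)]
  simp

lemma l4 (f : Fin n → ℕ → ℂ) (w : Σ a, Fin (δ a)) : ∑ v, PB δ w v * f v.1 v.2 = f w.1 w.2 := by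
  obtain ⟨a, j⟩ := w
  rw [Fintype.sum_sigma, sum_eq_single a
    (fun b _ h => by simp [blockDiagonal'_apply_ne _ _ _ h.symm]) (by simp)]
  simp only [blockDiagonal'_apply_eq, LB, of_apply]
  rw [sum_eq_single j.castSucc (fun k _ h => by
    rw [if_neg (fun e : k.val = j.val => h (Fin.ext e)), zero_mul]) (by simp)]
  simp

def ev (a : Fin n) (s : ℂ) (v : Σ a, Fin (δ a + 1)) : ℂ := if v.1 = a then s ^ v.2.val else 0

lemma ev1 (a : Fin n) (s : ℂ) : PA δ *ᵥ ev a s = s • PB δ *ᵥ ev a s := by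
  funext w
  have h3 := l3 (fun b i => if b = a then s ^ i else 0) w
  have h4 := l4 (fun b i => if b = a then s ^ i else 0) w
  simp only [mulVec, dotProduct, ev, Pi.smul_apply, h3, h4, smul_eq_mul]
  split_ifs <;> ring

lemma ev2 {u : (Σ a, Fin (δ a + 1)) → ℂ} (hu : u ≠ 0) : ∃ a, {s | ev a s ⬝ᵥ u = 0}.Finite := by
  obtain ⟨⟨a, i⟩, h⟩ := Function.ne_iff.1 hu
  have hP : (∑ j, Polynomial.monomial j.val (u ⟨a, j⟩) : Polynomial ℂ) ≠ 0 := fun e => h (by
    have := congrArg (Polynomial.coeff · i.val) e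
    simpa [Polynomial.coeff_monomial, Fin.val_inj] using this)
  refine ⟨a, (Polynomial.finite_setOfPred_isRoot hP).subset fun s hs => ?_⟩
  rw [Set.mem_ofPred_eq, dotProduct, Fintype.sum_sigma,
    sum_eq_single a (fun b _ h => by simp [ev, h]) (by simp)] at hs
  simpa [Polynomial.eval_finsetSum, ev, mul_comm] using hs

def st (δ : Fin n → ℕ) (c : ℕ) (a : Fin n) : ℕ := ∑ b ∈ Iio a, (δ b + c)

lemma st1 (c : ℕ) {a b : Fin n} (h : a < b) : st δ c a + δ a + c ≤ st δ c b := by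
  rw [st, add_assoc, add_comm, ← sum_insert (s := Iio a) (f := fun b => δ b + c) (by simp)]
  refine sum_le_sum_of_subset fun x hx => ?_
  simp only [mem_insert, mem_Iio] at hx ⊢
  exact hx.elim (fun e => e ▸ h) fun e => e.trans h

lemma st0 (b : Fin n) : st δ 0 b + δ b = ∑ x ∈ insert b (Iio b), δ x := by
  rw [sum_insert (by simp), add_comm]; rfl

lemma cov (x : ℕ) (hx : x < ∑ a, (δ a + 1)) : ∃ a, st δ 1 a ≤ x ∧ x ≤ st δ 1 a + δ a := by
  by_contra h
  push Not at h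
  have k : ∀ s : Finset (Fin n), (∀ a ∈ s, ∀ b < a, b ∈ s) → ∑ a ∈ s, (δ a + 1) ≤ x := fun s => by
    induction s using Finset.induction_on_max with
    | empty => simp
    | insert a s ha ih =>
      intro hs
      have e : s = Iio a := by
        ext b
        rw [mem_Iio]
        exact ⟨ha b, fun hb => (mem_insert.1 (hs a (by simp) b hb)).resolve_left hb.ne⟩
      have := ih fun b hb c hc => by rw [e, mem_Iio] at hb ⊢; exact hc.trans hb
      rw [sum_insert fun h => (ha a h).false, e]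
      have := h a (by rw [e] at this; exact this)
      unfold st at this
      omega
  exact absurd (k univ (by simp)) hx.not_ge

lemma ovl (hm : Monotone δ) (hc : Cond δ) {a b : Fin n} (hb : 0 < δ b)
    (h : st δ 1 a < st δ 0 b + δ b) : δ a < δ b := by
  by_contra h'
  refine h.not_ge ?_
  have h1 : st δ 0 b + δ b ≤ ∑ x with δ x < δ b, δ x + ∑ x with δ x = δ b, δ x := by
    rw [← sum_union (disjoint_filter.2 fun x _ h => h.ne), st0]
    refine sum_le_sum_of_subset fun x hx => ?_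
    simp only [mem_insert, mem_Iio, mem_union, mem_filter, mem_univ, true_and] at hx ⊢
    exact (hm (hx.elim le_of_eq le_of_lt)).lt_or_eq
  have h2 : ∑ x with δ x < δ b, (δ x + 1) ≤ st δ 1 a := sum_le_sum_of_subset fun x hx => by
    simp only [mem_Iio, mem_filter, mem_univ, true_and] at hx ⊢
    exact hm.reflect_lt (by omega)
  rw [sum_congr rfl (g := fun _ => δ b) fun x hx => (mem_filter.1 hx).2, sum_const, smul_eq_mul,
    mul_comm] at h1
  rw [sum_add_distrib, ← card_eq_sum_ones] at h2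
  have := hc _ hb
  omega

def sh (δ : Fin n → ℕ) (a b : Fin n) : ℕ :=
  if st δ 1 a < st δ 0 b then 0 else if st δ 0 b + δ b < st δ 1 a + δ a + 1 then δ b - 1 - δ a
  else st δ 1 a - st δ 0 b

def ov (δ : Fin n → ℕ) (a b : Fin n) : Prop :=
  0 < δ b ∧ st δ 1 a < st δ 0 b + δ b ∧ st δ 0 b ≤ st δ 1 a + δ a

open Classical in
noncomputable def Ef (δ : Fin n → ℕ) (b : Fin n) (k : ℕ) (a : Fin n) (j : ℕ) : ℂ :=
  if ov δ a b ∧ k = j + sh δ a b then 1 else 0

lemma pack (hm : Monotone δ) (hc : Cond δ) :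
    ∃ E : Matrix (Σ a, Fin (δ a)) (Σ a, Fin (δ a + 1)) ℂ,
      (PA δ)ᵀ * E * (PB δ)ᵀ = (PB δ)ᵀ * E * (PA δ)ᵀ ∧ ∀ c, c ᵥ* E = 0 → c = 0 := by
  have bd : ∀ a b, ov δ a b → δ a < δ b ∧ sh δ a b + δ a < δ b := fun a b h => by
    have := ovl hm hc h.1 h.2.1
    unfold sh
    split_ifs <;> omega
  refine ⟨of fun w v => Ef δ w.1 w.2 v.1 v.2, ?_, fun c hc0 => ?_⟩
  · ext v w
    have h1 : ∀ x : Σ a, Fin (δ a + 1), _ := fun x => l1 (fun b k => Ef δ b k x.1 x.2) v
    have h2 : ∀ x : Σ a, Fin (δ a + 1), _ := fun x => l2 (fun b k => Ef δ b k x.1 x.2) v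
    have h3 := l3 (fun a j => if v.2.val < δ v.1 then Ef δ v.1 v.2 a j else 0) w
    have h4 := l4 (fun a j => if 0 < v.2.val then Ef δ v.1 (v.2 - 1) a j else 0) w
    simp only [mul_apply, transpose_apply, of_apply, h1, h2]
    rw [sum_congr rfl fun x _ => mul_comm _ (PB δ w x), h4,
      sum_congr rfl fun x _ => mul_comm _ (PA δ w x), h3]
    unfold Ef
    have := w.2.2
    by_cases ho : ov δ w.1 v.1
    · have := bd _ _ ho
      simp only [ho, true_and]
      split_ifs <;> first | rfl | omega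
    · simp [ho]
  have eqn : ∀ (a b : Fin n) (k : Fin (δ b)) (j : ℕ), j ≤ δ a → ov δ a b → k = j + sh δ a b →
      (∀ (b' : Fin n) (k' : Fin (δ b')), b' ≠ b → ov δ a b' → k' = j + sh δ a b' →
        c ⟨b', k'⟩ = 0) → c ⟨b, k⟩ = 0 := fun a b k j hj h1 h2 h3 => by
    have := congrFun hc0 ⟨a, ⟨j, by omega⟩⟩
    rw [vecMul, dotProduct, sum_eq_single ⟨b, k⟩ (fun w _ hw => ?_) (by simp)] at this
    · simpa [Ef, h1, ← h2] using this
    obtain ⟨b', k'⟩ := w
    simp only [of_apply, Ef]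
    split_ifs with h
    · by_cases e : b' = b
      · subst e
        exact absurd (by rw [Fin.ext (h.2.trans h2.symm)]) hw
      · rw [h3 b' k' e h.1 h.2, zero_mul]
    · rw [mul_zero]
  have cv : ∀ b (k : Fin (δ b)), ∃ a, st δ 1 a ≤ st δ 0 b + k ∧ st δ 0 b + k ≤ st δ 1 a + δ a :=
    fun b k => cov _ (by
      have : st δ 0 b + δ b ≤ ∑ a, (δ a + 1) := by
        rw [st0]
        exact (sum_le_sum_of_subset (subset_univ _)).trans (sum_le_sum fun _ _ => by omega)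
      have := k.2
      omega)
  have low : ∀ b (k : Fin (δ b)) a, st δ 1 a ≤ st δ 0 b + k → st δ 0 b + k ≤ st δ 1 a + δ a →
      st δ 1 a + δ a + 1 ≤ st δ 0 b + δ b → c ⟨b, k⟩ = 0 := fun b => by
    induction b using (wellFounded_lt (α := Fin n)).induction with
    | h b ih =>
    intro k a h1 h2 h3
    have hk := k.2
    have ho : ov δ a b := ⟨by omega, by omega, by omega⟩
    have hb := bd _ _ ho
    refine eqn a b k (k - sh δ a b) ?_ ho ?_ fun b' k' hne ho' e => ?_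
    · unfold sh; split_ifs <;> omega
    · unfold sh; split_ifs <;> omega
    have hb' := bd _ _ ho'
    obtain ⟨-, o1, o2⟩ := ho'
    have lt : b' < b := hne.lt_or_gt.resolve_right fun h => by have := st1 (δ := δ) 0 h; omega
    have s1 := st1 (δ := δ) 0 lt
    obtain ⟨a', k1, k2⟩ := cv b' k'
    have pos : st δ 0 b' + k' < st δ 1 a := by
      unfold sh at e; split_ifs at e <;> omega
    have : a' < a := lt_of_not_ge fun h => by
      rcases h.lt_or_eq with h | h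
      · have := st1 (δ := δ) 1 h; omega
      · subst h; omega
    have := st1 (δ := δ) 1 this
    exact ih b' lt k' a' k1 k2 (by omega)
  funext ⟨b, k⟩
  induction b using (wellFounded_gt (α := Fin n)).induction with
  | h b ih =>
  obtain ⟨a, h1, h2⟩ := cv b k
  by_cases h3 : st δ 1 a + δ a + 1 ≤ st δ 0 b + δ b
  · exact low b k a h1 h2 h3
  have hk := k.2
  have ho : ov δ a b := ⟨by omega, by omega, by omega⟩
  have hb := bd _ _ ho
  refine eqn a b k (k - sh δ a b) ?_ ho ?_ fun b' k' hne ho' _ => ih b' ?_ k'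
  · unfold sh; split_ifs <;> omega
  · unfold sh; split_ifs <;> omega
  · exact hne.lt_or_gt.resolve_left fun h => by
      have := st1 (δ := δ) 0 h
      have := ho'.2.1
      omega

lemma glue {V1 W1 V2 W2 : Type} [Fintype V1] [Fintype W1] [Fintype V2] [Fintype W2]
    [DecidableEq W1] [DecidableEq W2] (A1 B1 : Matrix V1 W1 ℂ) (A2 B2 : Matrix V2 W2 ℂ)
    (E1 : Matrix W1 V1 ℂ) (E2 : Matrix W2 V2 ℂ) (h1 : A1 * E1 * B1 = B1 * E1 * A1)
    (h2 : A2 * E2 * B2 = B2 * E2 * A2) (i1 : ∀ c, c ᵥ* E1 = 0 → c = 0)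
    (i2 : ∀ u, E2 *ᵥ u = 0 → u = 0) (e : W1 ⊕ W2 ≃ V1 ⊕ V2)
    (key : ∀ (u : V1 → ℂ) (c : W2 → ℂ), u ≠ 0 → c ≠ 0 → c ᵥ* E2 = 0 → ∃ (w : W2 → ℂ) (l : V1 → ℂ)
      (s : ℂ), A2 *ᵥ w = s • B2 *ᵥ w ∧ l ᵥ* A1 = s • l ᵥ* B1 ∧ l ⬝ᵥ u ≠ 0 ∧ c ⬝ᵥ w ≠ 0) :
    ∃ M : Matrix (W1 ⊕ W2) (V1 ⊕ V2) ℂ, fromBlocks A1 0 0 A2 * M * fromBlocks B1 0 0 B2 =
      fromBlocks B1 0 0 B2 * M * fromBlocks A1 0 0 A2 ∧ ∀ u, M *ᵥ u = 0 → u = 0 := by
  obtain ⟨_, ⟨H, hH, rfl⟩, hmin⟩ := (wellFounded_lt (α := Submodule ℂ (V1 ⊕ V2 → ℂ))).has_min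
    {K | ∃ H, A2 * H * B1 = B2 * H * A1 ∧ K = LinearMap.ker (fromBlocks E1 0 H E2).mulVecLin}
    ⟨_, 0, by simp, rfl⟩
  refine ⟨fromBlocks E1 0 H E2, by simp [fromBlocks_multiply, h1, h2, hH], fun u hu => ?_⟩
  by_contra hu0
  obtain ⟨c, hc0, hc⟩ := exists_vecMul_eq_zero_iff.2
    ((exists_mulVec_eq_zero_iff (M := (fromBlocks E1 0 H E2).submatrix id e)).1
      ⟨u ∘ e, fun h => hu0 (funext fun x => by simpa using congrFun h (e.symm x)), by
        rw [submatrix_mulVec_equiv, Function.comp_assoc, e.self_comp_symm, Function.comp_id u, hu]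
        rfl⟩)
  have hc' : c ᵥ* fromBlocks E1 0 H E2 = 0 := funext fun x => by
    simpa [vecMul, dotProduct] using congrFun hc (e.symm x)
  have hu' := hu
  have hc2 := hc'
  rw [← Sum.elim_comp_inl_inr u, fromBlocks_mulVec] at hu'
  rw [← Sum.elim_comp_inl_inr c, vecMul_fromBlocks] at hc2
  rw [← Sum.elim_zero_zero, Sum.elim_eq_iff] at hu' hc2
  simp only [Sum.elim_comp_inl, Sum.elim_comp_inr, zero_mulVec, add_zero, vecMul_zero,
    zero_add] at hu' hc2
  obtain ⟨w, l, s, k1, k2, k3, k4⟩ := key (u ∘ Sum.inl) (c ∘ Sum.inr) (fun h => hu0 (by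
    rw [← Sum.elim_comp_inl_inr u, h, i2 (u ∘ Sum.inr) (by simpa [h] using hu'.2), Sum.elim_zero_zero]))
    (fun h => hc0 (by
      rw [← Sum.elim_comp_inl_inr c, h, i1 (c ∘ Sum.inl) (by simpa [h] using hc2.1), Sum.elim_zero_zero])) hc2.2
  have e1 : fromBlocks E1 0 (H + vecMulVec w l) E2 =
      fromBlocks E1 0 H E2 + vecMulVec (Sum.elim 0 w) (Sum.elim l 0) := by
    ext (i | i) (j | j) <;> simp [vecMulVec_apply]
  have e2 : c ⬝ᵥ Sum.elim 0 w ≠ 0 := by
    rw [← Sum.elim_comp_inl_inr c, sumElim_dotProduct_sumElim]; simpa using k4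
  have e3 : Sum.elim l 0 ⬝ᵥ u ≠ 0 := by
    rw [← Sum.elim_comp_inl_inr u, sumElim_dotProduct_sumElim]; simpa using k3
  have k : ∀ x, fromBlocks E1 0 (H + vecMulVec w l) E2 *ᵥ x = 0 → Sum.elim l 0 ⬝ᵥ x = 0 :=
    fun x hx => by
      have := congrArg (c ⬝ᵥ ·) hx
      simp only [e1, dotProduct_mulVec, vecMul_add, hc', zero_add, vecMul_vecMulVec,
        smul_dotProduct, dotProduct_zero, smul_eq_zero] at this
      exact this.resolve_left e2
  refine hmin _ ⟨H + vecMulVec w l, ?_, rfl⟩ (lt_of_le_of_ne (fun x hx => ?_) fun h => e3 (k u ?_))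
  · rw [Matrix.mul_add, Matrix.mul_add, Matrix.add_mul, Matrix.add_mul, hH, mul_vecMulVec,
      mul_vecMulVec, vecMulVec_mul, vecMulVec_mul, k1, k2, smul_vecMulVec, vecMulVec_smul]
  · have h := k x hx
    rw [LinearMap.mem_ker, mulVecLin_apply] at hx ⊢
    rw [e1, add_mulVec, vecMulVec_mulVec, h] at hx
    simpa using hx
  · exact (h ▸ hu : u ∈ LinearMap.ker (fromBlocks E1 0 (H + vecMulVec w l) E2).mulVecLin)

theorem result {n m p q N : ℕ} (δ : Fin n → ℕ) (ε : Fin m → ℕ) (γ : Fin p → ℕ) (β : Fin q → ℕ)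
    (μ : Fin p → ℂ) (hδ : Monotone δ) (hε : Monotone ε) (cδ : Cond δ) (cε : Cond ε)
    (eR : Row δ ε γ β ≃ Fin N) (eC : Col δ ε γ β ≃ Fin N) (A B S T : Matrix (Fin N) (Fin N) ℂ)
    (hS : IsUnit S) (hT : IsUnit T) (hA : S * A * T = reindex eR eC (KA δ ε γ β μ))
    (hB : S * B * T = reindex eR eC (KB δ ε γ β)) :
    ∃ E : Matrix (Fin N) (Fin N) ℂ, IsUnit E ∧ E * A * (E * B) = E * B * (E * A) := by
  obtain ⟨E1, h1, i1⟩ := pack hδ cδ
  obtain ⟨E2, h2, i2⟩ := pack hε cε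
  have h3 : PA ε * E2ᵀ * PB ε = PB ε * E2ᵀ * PA ε := by
    simpa [Matrix.mul_assoc] using (congrArg transpose h2).symm
  obtain ⟨M, hM, iM⟩ : ∃ M : Matrix (Col δ ε γ β) (Row δ ε γ β) ℂ,
      KA δ ε γ β μ * M * KB δ ε γ β = KB δ ε γ β * M * KA δ ε γ β μ ∧ ∀ u, M *ᵥ u = 0 → u = 0 := by
    refine glue _ _ _ _ E1 (fromBlocks E2ᵀ 0 0 1) (by simpa [blockDiagonal'_transpose] using h1)
      (by simp [fromBlocks_multiply, h3, ← blockDiagonal'_mul]) i1 (fun u hu => ?_)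
      (eC.trans eR.symm) fun u c hu hc hc' => ?_
    · rw [← Sum.elim_comp_inl_inr u, fromBlocks_mulVec, ← Sum.elim_zero_zero, Sum.elim_eq_iff] at hu
      simp only [Sum.elim_comp_inl, Sum.elim_comp_inr, zero_mulVec, add_zero, zero_add,
        one_mulVec, mulVec_transpose] at hu
      rw [← Sum.elim_comp_inl_inr u, i2 _ hu.1, hu.2]
      simp
    · rw [← Sum.elim_comp_inl_inr c, vecMul_fromBlocks] at hc'
      have k := congrArg (· ∘ Sum.inr) hc'
      simp only [Sum.elim_comp_inl, Sum.elim_comp_inr, vecMul_zero, zero_add, vecMul_one] at k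
      obtain ⟨a, ha⟩ := ev2 hu
      obtain ⟨b, hb⟩ := ev2 (u := c ∘ Sum.inl) fun h => hc (by
        rw [← Sum.elim_comp_inl_inr c, h, k]; ext (x | x) <;> rfl)
      obtain ⟨s, hs⟩ := (ha.union hb).exists_notMem
      simp only [Set.mem_union, Set.mem_ofPred_eq, not_or] at hs
      refine ⟨Sum.elim (ev b s) 0, ev a s, s, ?_, ?_, hs.1, ?_⟩
      · ext (x | x) <;> simp [fromBlocks_mulVec, ev1]
      · simp only [← blockDiagonal'_transpose, vecMul_transpose, ev1]
      · rw [← Sum.elim_comp_inl_inr c, sumElim_dotProduct_sumElim, dotProduct_comm]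
        simpa using hs.2
  have uM : IsUnit (reindex eC eR M) := by
    rw [isUnit_iff_isUnit_det, isUnit_iff_ne_zero, Ne, ← exists_mulVec_eq_zero_iff]
    rintro ⟨v, h, k⟩
    rw [reindex_apply, submatrix_mulVec_equiv] at k
    have := iM _ (funext fun x => by simpa using congrFun k (eC x))
    exact h (funext fun x => by simpa using congrFun this (eR.symm x))
  refine ⟨T * reindex eC eR M * S, (hT.mul uM).mul hS, hT.mul_right_cancel ?_⟩
  have k : S * A * T * reindex eC eR M * (S * B * T) = S * B * T * reindex eC eR M * (S * A * T) := by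
    simp only [hA, hB, reindex_apply, submatrix_mul_equiv, hM]
  simp only [Matrix.mul_assoc] at k ⊢
  rw [k]

end Pool.Agent.Results.MP_3c4fb9_al.Commute
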